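import Mathlib

/-!
# Sums of independent integral variables are not concentrated
-/

set_option autoImplicit false

namespace Pool.Agent.Q173.AL

/-- The number of the `g` with `∑ k, δ (g k) = s`. -/
noncomputable def cnt {I : Type} (δ : I → ℤ) (n : ℕ) (s : ℤ) : ℕ :=
  Nat.card {g : Fin n → I // ∑ k, δ (g k) = s}

lemma cnt_succ {I : Type} [Fintype I] (δ : I → ℤ) (n : ℕ) (s : ℤ) :
    cnt δ (n + 1) s = ∑ i, cnt δ n (s - δ i) := by
  classical
  unfold cnt
  have e : {g : Fin (n + 1) → I // ∑ k, δ (g k) = s} ≃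
      Σ i : I, {g : Fin n → I // ∑ k, δ (g k) = s - δ i} :=
    { toFun := fun g => ⟨g.1 0, ⟨fun k => g.1 k.succ, by
        have := g.2
        rw [Fin.sum_univ_succ] at this
        linarith⟩⟩
      invFun := fun p => ⟨Fin.cons p.1 p.2.1, by
        rw [Fin.sum_univ_succ]
        simp only [Fin.cons_zero, Fin.cons_succ]
        have := p.2.2
        linarith⟩
      left_inv := fun g => by
        apply Subtype.ext
        funext k
        refine Fin.cases ?_ (fun j => ?_) k <;> simp
      right_inv := fun p => by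
        obtain ⟨i, g, hg⟩ := p
        simp
        rfl }
  rw [Nat.card_congr e, Nat.card_sigma]

/-- Central binomial coefficients. -/
lemma choose_sq (a : ℕ) : (a.choose (a / 2)) ^ 2 * (a + 1) ≤ 4 ^ a := by
  have hc : ∀ n : ℕ, (Nat.centralBinom n) ^ 2 * (2 * n + 1) ≤ 16 ^ n := by
    intro n
    induction n with
    | zero => simp
    | succ n ih =>
      have h := Nat.succ_mul_centralBinom_succ n
      have h2 : (n + 1) ^ 2 * (Nat.centralBinom (n + 1)) ^ 2 =
          4 * (2 * n + 1) ^ 2 * (Nat.centralBinom n) ^ 2 := by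
        rw [← mul_pow, h]
        ring
      have h3 : (n + 1) ^ 2 * ((Nat.centralBinom (n + 1)) ^ 2 * (2 * (n + 1) + 1)) ≤
          (n + 1) ^ 2 * 16 ^ (n + 1) := by
        calc (n + 1) ^ 2 * ((Nat.centralBinom (n + 1)) ^ 2 * (2 * (n + 1) + 1))
            = ((n + 1) ^ 2 * (Nat.centralBinom (n + 1)) ^ 2) * (2 * n + 3) := by ring
          _ = 4 * (2 * n + 1) * (2 * n + 3) * ((Nat.centralBinom n) ^ 2 * (2 * n + 1)) := by
              rw [h2]; ring
          _ ≤ 4 * (2 * n + 1) * (2 * n + 3) * 16 ^ n := Nat.mul_le_mul_left _ ih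
          _ ≤ (n + 1) ^ 2 * 16 * 16 ^ n := Nat.mul_le_mul_right _ (by nlinarith)
          _ = (n + 1) ^ 2 * 16 ^ (n + 1) := by ring
      exact Nat.le_of_mul_le_mul_left h3 (by positivity)
  rcases Nat.even_or_odd' a with ⟨n, rfl | rfl⟩
  · have h := hc n
    rw [Nat.centralBinom_eq_two_mul_choose] at h
    have h1 : 2 * n / 2 = n := by omega
    rw [h1]
    calc _ ≤ 16 ^ n := h
      _ = 4 ^ (2 * n) := by rw [pow_mul]; norm_num
  · have h := hc (n + 1)
    rw [Nat.centralBinom_eq_two_mul_choose] at h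
    have h1 : (2 * n + 1) / 2 = n := by omega
    have h2 : (2 * (n + 1)).choose (n + 1) = 2 * (2 * n + 1).choose n := by
      rw [show 2 * (n + 1) = (2 * n + 1) + 1 by ring, Nat.choose_succ_succ,
        Nat.choose_symm_half n]
      ring
    rw [h1]
    rw [h2] at h
    have h3 : 4 * ((2 * n + 1).choose n ^ 2 * (2 * n + 1 + 1)) ≤ 4 * 4 ^ (2 * n + 1) := by
      calc 4 * ((2 * n + 1).choose n ^ 2 * (2 * n + 1 + 1))
          ≤ (2 * (2 * n + 1).choose n) ^ 2 * (2 * (n + 1) + 1) := by
            nlinarith [Nat.zero_le ((2 * n + 1).choose n ^ 2)]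
        _ ≤ 16 ^ (n + 1) := h
        _ = 4 * 4 ^ (2 * n + 1) := by
          rw [show (16 : ℕ) = 4 ^ 2 by norm_num, ← pow_mul]
          ring
    exact Nat.le_of_mul_le_mul_left h3 (by norm_num)

/-- Two-point steps. -/
lemma cnt_bool {α β : ℤ} (h : α ≠ β) (b : ℕ) (s : ℤ) :
    cnt (fun x : Bool => if x then α else β) b s ≤ b.choose (b / 2) := by
  classical
  unfold cnt
  by_cases hne : ∃ g : Fin b → Bool, ∑ k, (if g k then α else β) = s
  · obtain ⟨g₀, hg₀⟩ := hne
    let A : (Fin b → Bool) → Finset (Fin b) := fun g => Finset.univ.filter fun k => g k = true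
    have hsum : ∀ g : Fin b → Bool, ∑ k, (if g k then α else β) =
        (A g).card * (α - β) + b * β := by
      intro g
      have h1 : ∀ k, (if g k then α else β) = (if g k = true then (α - β) else 0) + β := by
        intro k
        by_cases hk : g k = true <;> simp [hk]
      rw [Finset.sum_congr rfl fun k _ => h1 k, Finset.sum_add_distrib, ← Finset.sum_filter,
        Finset.sum_const, Finset.sum_const, Finset.card_univ, Fintype.card_fin, nsmul_eq_mul,
        nsmul_eq_mul]
    have hcard : ∀ g : {g : Fin b → Bool // ∑ k, (if g k then α else β) = s},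
        A g.1 ∈ Finset.powersetCard (A g₀).card (Finset.univ : Finset (Fin b)) := by
      intro g
      rw [Finset.mem_powersetCard]
      refine ⟨Finset.subset_univ _, ?_⟩
      have h1 := hsum g.1
      have h2 := hsum g₀
      rw [g.2] at h1
      rw [hg₀] at h2
      have h3 : (((A g.1).card : ℤ) - (A g₀).card) * (α - β) = 0 := by linarith
      rcases mul_eq_zero.1 h3 with h4 | h4
      · omega
      · exact absurd (by omega) h
    have h1 : Nat.card {g : Fin b → Bool // ∑ k, (if g k then α else β) = s} ≤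
        Nat.card (Finset.powersetCard (A g₀).card (Finset.univ : Finset (Fin b))) := by
      apply Nat.card_le_card_of_injective fun g => (⟨A g.1, hcard g⟩ :
        {x // x ∈ Finset.powersetCard (A g₀).card (Finset.univ : Finset (Fin b))})
      intro g g' hgg
      apply Subtype.ext
      funext k
      have h2 : A g.1 = A g'.1 := congrArg Subtype.val hgg
      have h3 : k ∈ A g.1 ↔ k ∈ A g'.1 := by rw [h2]
      simp only [A, Finset.mem_filter, Finset.mem_univ, true_and] at h3
      cases h4 : g.1 k <;> cases h5 : g'.1 k <;> simp_all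
    refine h1.trans ?_
    rw [Nat.card_eq_fintype_card, Fintype.card_coe, Finset.card_powersetCard, Finset.card_univ,
      Fintype.card_fin]
    exact Nat.choose_le_middle _ _
  · have : IsEmpty {g : Fin b → Bool // ∑ k, (if g k then α else β) = s} :=
      ⟨fun g => hne ⟨g.1, g.2⟩⟩
    rw [Nat.card_of_isEmpty]
    exact Nat.zero_le _

/-- `n` arbitrary steps and `b` two-point steps. -/
noncomputable def mix {I : Type} [Fintype I] (δ : I → ℤ) (α β : ℤ) : ℕ → ℕ → ℤ → ℕ
  | 0, b, s => cnt (fun x : Bool => if x then α else β) b s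
  | n + 1, b, s => ∑ i, mix δ α β n b (s - δ i)

variable {I : Type} [Fintype I] {δ : I → ℤ} {α β : ℤ}

lemma cnt_zero {I : Type} (δ : I → ℤ) (s : ℤ) : cnt δ 0 s = if s = 0 then 1 else 0 := by
  unfold cnt
  by_cases h : s = 0
  · subst h
    rw [if_pos rfl]
    simp
  · rw [if_neg h]
    have : IsEmpty {g : Fin 0 → I // ∑ k, δ (g k) = s} := ⟨fun g => h (by simpa using g.2.symm)⟩
    exact Nat.card_of_isEmpty

lemma mix_zero (n : ℕ) (s : ℤ) : mix δ α β n 0 s = cnt δ n s := by
  induction n generalizing s with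
  | zero => rw [mix, cnt_zero, cnt_zero]
  | succ n ih => rw [mix, cnt_succ]; exact Finset.sum_congr rfl fun i _ => ih _

lemma mix_shift (n b : ℕ) (s : ℤ) :
    mix δ α β n (b + 1) s = mix δ α β n b (s - α) + mix δ α β n b (s - β) := by
  induction n generalizing s with
  | zero => rw [mix, mix, mix, cnt_succ]; simp
  | succ n ih =>
    rw [mix, mix, mix, ← Finset.sum_add_distrib]
    refine Finset.sum_congr rfl fun i _ => ?_
    rw [ih, sub_right_comm, sub_right_comm s β]

/-- The elementary inequality. -/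
lemma step_ineq {X t : ℝ} (hX : 1 ≤ X) (ht : 0 ≤ t) (ht1 : t ≤ 1) :
    t / √(X + 1) + (1 - t) / √X ≤ 1 / √(X + t / 4) := by
  have hX0 : 0 < X := by linarith
  have hs : 0 < √X := Real.sqrt_pos.2 hX0
  have h1 : 1 / √(X + 1) ≤ (1 - 1 / (8 * X)) / √X := by
    rw [div_le_div_iff₀ (Real.sqrt_pos.2 (by linarith)) hs, one_mul]
    have h2 : 0 ≤ 1 - 1 / (8 * X) := by
      rw [sub_nonneg, div_le_one (by positivity)]
      linarith
    rw [Real.sqrt_le_left (by positivity), mul_pow, Real.sq_sqrt (by linarith)]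
    have h3 : (1 - 1 / (8 * X)) ^ 2 * (X + 1) - X = ((3 / 4 * X - 1 / 4) * X + 1 / 64 * (X + 1)) / X ^ 2 := by
      field_simp
      ring
    have h4 : 0 ≤ ((3 / 4 * X - 1 / 4) * X + 1 / 64 * (X + 1)) / X ^ 2 := by
      apply div_nonneg _ (by positivity)
      nlinarith
    linarith
  have h2 : (1 - t / (8 * X)) / √X ≤ 1 / √(X + t / 4) := by
    rw [div_le_div_iff₀ hs (Real.sqrt_pos.2 (by linarith)), one_mul]
    apply Real.le_sqrt_of_sq_le
    rw [mul_pow, Real.sq_sqrt (by linarith)]
    have h3 : X - (1 - t / (8 * X)) ^ 2 * (X + t / 4) =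
        t ^ 2 * (3 * X - t / 4) / (64 * X ^ 2) := by
      field_simp
      ring
    have h4 : 0 ≤ t ^ 2 * (3 * X - t / 4) / (64 * X ^ 2) := by
      apply div_nonneg _ (by positivity)
      apply mul_nonneg (by positivity)
      linarith
    linarith
  calc t / √(X + 1) + (1 - t) / √X = t * (1 / √(X + 1)) + (1 - t) / √X := by ring
    _ ≤ t * ((1 - 1 / (8 * X)) / √X) + (1 - t) / √X := by
        have := mul_le_mul_of_nonneg_left h1 ht
        linarith
    _ = (1 - t / (8 * X)) / √X := by
        field_simp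
        ring
    _ ≤ _ := h2

lemma mix_le (hαβ : α ≠ β) {i₀ i₁ : I} (h0 : δ i₀ = α) (h1 : δ i₁ = β) (n b : ℕ) (s : ℤ) :
    (mix δ α β n b s : ℝ) ≤ 2 ^ b * (Fintype.card I : ℝ) ^ n /
      √(1 + b + n / (2 * (Fintype.card I : ℝ))) := by
  classical
  have hne : i₀ ≠ i₁ := fun h => hαβ (by rw [← h0, ← h1, h])
  have hc : 2 ≤ Fintype.card I := by
    have : Finset.card ({i₀, i₁} : Finset I) ≤ Fintype.card I := Finset.card_le_univ _
    rwa [Finset.card_pair hne] at this
  have hcR : (2 : ℝ) ≤ Fintype.card I := by exact_mod_cast hc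
  induction n generalizing b s with
  | zero =>
    rw [mix]
    have h2 : (cnt (fun x : Bool => if x then α else β) b s : ℝ) ≤ (b.choose (b / 2) : ℕ) := by
      exact_mod_cast cnt_bool hαβ b s
    refine h2.trans ?_
    rw [le_div_iff₀ (Real.sqrt_pos.2 (by positivity))]
    have h3 := choose_sq b
    have h4 : ((b.choose (b / 2) : ℕ) : ℝ) ^ 2 * (b + 1) ≤ 4 ^ b := by exact_mod_cast h3
    have h5 : (((b.choose (b / 2) : ℕ) : ℝ) * √(1 + b)) ^ 2 ≤ (2 ^ b) ^ 2 := by
      rw [mul_pow, Real.sq_sqrt (by positivity), ← pow_mul, mul_comm b 2, pow_mul]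
      norm_num
      linarith
    have h6 := (pow_le_pow_iff_left₀ (by positivity) (by positivity) two_ne_zero).1 h5
    simpa using h6
  | succ n ih =>
    rw [mix]
    have hsplit : ∑ i, mix δ α β n b (s - δ i) = mix δ α β n (b + 1) s +
        ∑ i ∈ (Finset.univ : Finset I) \ {i₀, i₁}, mix δ α β n b (s - δ i) := by
      rw [mix_shift, ← Finset.sum_sdiff (Finset.subset_univ ({i₀, i₁} : Finset I)), add_comm,
        Finset.sum_pair hne, h0, h1]
    rw [hsplit]
    push_cast
    have h2 : ∑ i ∈ (Finset.univ : Finset I) \ {i₀, i₁}, (mix δ α β n b (s - δ i) : ℝ) ≤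
        ((Fintype.card I : ℝ) - 2) * (2 ^ b * (Fintype.card I : ℝ) ^ n /
          √(1 + b + n / (2 * (Fintype.card I : ℝ)))) := by
      refine (Finset.sum_le_card_nsmul _ _ _ fun i _ => ih b (s - δ i)).trans ?_
      rw [nsmul_eq_mul, Finset.card_sdiff_of_subset (Finset.subset_univ _), Finset.card_pair hne,
        Finset.card_univ, Nat.cast_sub hc]
      push_cast
      exact le_rfl
    have h3 := ih (b + 1) s
    push_cast at h3
    have hX : (1 : ℝ) ≤ 1 + b + n / (2 * (Fintype.card I : ℝ)) := by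
      have : (0 : ℝ) ≤ b + n / (2 * (Fintype.card I : ℝ)) := by positivity
      linarith
    have h4 := step_ineq hX (t := 2 / (Fintype.card I : ℝ)) (by positivity)
      ((div_le_one (by linarith)).2 hcR)
    have h5 : (1 : ℝ) + (b + 1) + n / (2 * (Fintype.card I : ℝ)) =
        1 + b + n / (2 * (Fintype.card I : ℝ)) + 1 := by ring
    have h6 : (1 : ℝ) + b + (n + 1) / (2 * (Fintype.card I : ℝ)) =
        1 + b + n / (2 * (Fintype.card I : ℝ)) + 2 / (Fintype.card I : ℝ) / 4 := by
      field_simp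
      ring
    rw [h5] at h3
    rw [h6]
    have hI : (0 : ℝ) < Fintype.card I := by linarith
    calc (mix δ α β n (b + 1) s : ℝ) +
          ∑ i ∈ (Finset.univ : Finset I) \ {i₀, i₁}, (mix δ α β n b (s - δ i) : ℝ)
        ≤ 2 ^ (b + 1) * (Fintype.card I : ℝ) ^ n /
            √(1 + b + n / (2 * (Fintype.card I : ℝ)) + 1) +
          ((Fintype.card I : ℝ) - 2) * (2 ^ b * (Fintype.card I : ℝ) ^ n /
            √(1 + b + n / (2 * (Fintype.card I : ℝ)))) := add_le_add h3 h2
      _ = 2 ^ b * (Fintype.card I : ℝ) ^ (n + 1) * (2 / (Fintype.card I : ℝ) /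
            √(1 + b + n / (2 * (Fintype.card I : ℝ)) + 1) + (1 - 2 / (Fintype.card I : ℝ)) /
              √(1 + b + n / (2 * (Fintype.card I : ℝ)))) := by
          field_simp
          ring
      _ ≤ 2 ^ b * (Fintype.card I : ℝ) ^ (n + 1) * (1 /
            √(1 + b + n / (2 * (Fintype.card I : ℝ)) + 2 / (Fintype.card I : ℝ) / 4)) :=
          mul_le_mul_of_nonneg_left h4 (by positivity)
      _ = _ := by rw [mul_one_div]

/-- **Anticoncentration.** -/
theorem cnt_le {I : Type} [Fintype I] {δ : I → ℤ} {i₀ i₁ : I} (h : δ i₀ ≠ δ i₁) (n : ℕ) (s : ℤ) :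
    (cnt δ n s : ℝ) ≤ (Fintype.card I : ℝ) ^ n / √(1 + n / (2 * (Fintype.card I : ℝ))) := by
  have := mix_le (δ := δ) h rfl rfl n 0 s
  rw [mix_zero] at this
  simpa using this

end Pool.Agent.Q173.AL
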