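import Pool.Agent.Q173.AL.Moment

/-!
# The monodromy-weight conjecture from approximate laws
-/

set_option autoImplicit false

open Module TensorProduct

namespace Pool.Agent.Q173.AL

universe u v w

open Pool.Agent.Y143 Pool.Agent.Y136.UB Pool.Agent.H914 Pool.Agent.Y163.MW
  Pool.Agent.Y163.MW.Coh Pool.Agent.Q173.OS

lemma sum_eq_zero_of_symm {I : Type} [Fintype I] (a : I → ℤ)
    (h : ∀ r : ℤ, Nat.card {i // a i = r} = Nat.card {i // a i = -r}) : ∑ i, a i = 0 := by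
  have h1 : ∑ᶠ r : ℤ, r * (Nat.card {i // a i = r} : ℤ) = ∑ i, a i := finsum_card a fun r => r
  have h2 : ∑ᶠ r : ℤ, r * (Nat.card {i // (fun i => -a i) i = r} : ℤ) = ∑ i, -a i :=
    finsum_card (fun i => -a i) fun r => r
  have h3 : ∀ r : ℤ, Nat.card {i // (fun i => -a i) i = r} = Nat.card {i // a i = r} := by
    intro r
    rw [h r]
    refine Nat.card_congr (Equiv.subtypeEquivRight fun i => ?_)
    constructor <;> intro h <;> simp only at h ⊢ <;> omega
  rw [finsum_congr (fun r => by rw [h3 r]), h1, Finset.sum_neg_distrib] at h2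
  omega

section

variable {K : Type u} [Field K] {Ω : Type w} [Field Ω] [CharZero Ω] [IsAlgClosed Ω]
  {T : Theory.{u, v, w} K Ω} {q : ℕ}

/-- The data of a variety: an adapted basis of its cohomology. -/
lemma exists_adp (hT : T.IsLocal q) (hq : 1 < q) (X : SmVar.{u} K) :
    ∃ (P : Type) (_ : Fintype P) (a c : P → ℤ), (T.H X).Adp q a c ∧ ∑ p, a p = 0 ∧ ∑ p, c p = 0 ∧
      ((∀ m, (T.H X).MWPure q m) ↔ ∀ p, c p = a p) ∧
        ((∀ m, (T.H X).MWPure q m) ∨ ∑ p, a p ^ 2 + 1 ≤ ∑ p, c p ^ 2) := by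
  obtain ⟨S⟩ := exists_strings hq (hT.coh X)
  have H := adp_strings S
  have hct : ∑ p, S.ct p = 0 := by
    apply sum_eq_zero_of_symm
    intro r
    let E : S.P ≃ S.P := Equiv.sigmaCongrRight fun s => Fin.revPerm
    refine Nat.card_congr (E.subtypeEquiv ?_)
    rintro ⟨s, i⟩
    have hE : S.ct (E ⟨s, i⟩) = -S.ct ⟨s, i⟩ := by
      show (S.len s : ℤ) - 2 * ((Fin.rev i : Fin (S.len s + 1)) : ℕ) =
        -((S.len s : ℤ) - 2 * (i : ℕ))
      rw [Fin.val_rev]
      have := i.2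
      omega
    rw [hE]
    omega
  have hwt : ∑ p, S.wt p = 0 := by
    apply sum_eq_zero_of_symm
    intro r
    rw [← H.finrank_tot hq (hT.coh X), ← H.finrank_tot hq (hT.coh X)]
    exact finrank_tot_neg hq (hT.coh X) r
  refine ⟨S.P, inferInstance, S.ct, S.wt, H, hct, hwt, ?_, ?_⟩
  · rw [mw_iff hq (hT.coh X) S]
    constructor
    · intro h p
      unfold Strings.wt Strings.ct
      rw [h p.1]
    · intro h s
      have := h ⟨s, ⟨0, by omega⟩⟩
      unfold Strings.wt Strings.ct at this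
      simpa using this
  · have h1 := moment_tot hq (hT.coh X)
    rw [totRank_eq S, totWeight_eq hq (hT.coh X) S] at h1
    by_cases h : ∀ m, (T.H X).MWPure q m
    · exact Or.inl h
    · right
      have h2 : ∑ p, S.ct p ^ 2 ≠ ∑ p, S.wt p ^ 2 := fun h3 => h (h1.2.1 h3)
      exact Int.add_one_le_iff.2 (lt_of_le_of_ne h1.1 h2)

/-- The moments of the powers of `X`. -/
theorem moments_pow (hT : T.IsLocal q) (hq : 1 < q) {X : SmVar.{u} K}
    (hX : ¬ ∀ m, (T.H X).MWPure q m) (n : ℕ) :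
    (T.H (pow X n)).totRankMoment + (n + 1) * (finrank Ω (T.H X).V : ℤ) ^ n ≤
      (T.H (pow X n)).totWeightMoment q := by
  obtain ⟨P, hP, a, c, H, ha, hc, -, h⟩ := exists_adp hT hq X
  have h1 := h.resolve_left hX
  have Hn := adp_pow hT hq X H n
  obtain ⟨M, hM⟩ := exists_mon hq (hT.coh (pow X n))
  rw [adp_rank hq (hT.coh _) Hn hM, adp_weight hq (hT.coh _) Hn, sum_sq a ha, sum_sq c hc,
    H.finrank_eq]
  have h2 : (0 : ℤ) ≤ (n + 1) * (Fintype.card P : ℤ) ^ n := by positivity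
  have h3 := mul_le_mul_of_nonneg_left h1 h2
  linarith

/-- The numbers of eigenvalues near the expected weight on the powers of `X`. -/
theorem within_pow (hT : T.IsLocal q) (hq : 1 < q) {X : SmVar.{u} K}
    (hX : ¬ ∀ m, (T.H X).MWPure q m) (n L : ℕ) {M : ℤ → Submodule Ω (T.H (pow X n)).V}
    (hM : IsMonodromyFiltrationOn ⊤ (T.H (pow X n)).N M) :
    (within (T.H (pow X n)) q M L : ℝ) * √(1 + ((n + 1 : ℕ) : ℝ) /
      (2 * (finrank Ω (T.H X).V : ℝ))) ≤ (2 * L + 1) * (finrank Ω (T.H X).V : ℝ) ^ (n + 1) := by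
  classical
  obtain ⟨P, hP, a, c, H, ha, hc, h1, -⟩ := exists_adp hT hq X
  rw [h1] at hX
  have Hn := adp_pow hT hq X H n
  rw [adp_within hq (hT.coh _) Hn hM, H.finrank_eq]
  have hd : ∀ g : Fin (n + 1) → P, ∑ k, c (g k) - ∑ k, a (g k) = ∑ k, (c (g k) - a (g k)) :=
    fun g => (Finset.sum_sub_distrib _ _).symm
  -- two different values
  have hne : ∃ p₀ p₁, c p₀ - a p₀ ≠ c p₁ - a p₁ := by
    by_contra hcon
    push Not at hcon hX
    obtain ⟨p, hp⟩ := hX
    have h2 : ∑ p', (c p' - a p') = 0 := by rw [Finset.sum_sub_distrib, ha, hc, sub_zero]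
    rw [Finset.sum_congr rfl (fun p' _ => hcon p' p), Finset.sum_const, nsmul_eq_mul] at h2
    rcases mul_eq_zero.1 h2 with h3 | h3
    · have : Finset.card (Finset.univ : Finset P) = 0 := by exact_mod_cast h3
      rw [Finset.card_eq_zero] at this
      exact absurd (Finset.mem_univ p) (by rw [this]; exact Finset.notMem_empty p)
    · omega
  obtain ⟨p₀, p₁, hp⟩ := hne
  have hcount : ((Nat.card {g : Fin (n + 1) → P // |∑ k, c (g k) - ∑ k, a (g k)| ≤ L} : ℤ) : ℝ) ≤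
      ∑ r ∈ Finset.Icc (-(L : ℤ)) L, (cnt (fun p => c p - a p) (n + 1) r : ℝ) := by
    have : Nat.card {g : Fin (n + 1) → P // |∑ k, c (g k) - ∑ k, a (g k)| ≤ L} ≤
        ∑ r ∈ Finset.Icc (-(L : ℤ)) L, cnt (fun p => c p - a p) (n + 1) r := by
      rw [Nat.card_eq_fintype_card, Fintype.card_subtype]
      have h4 : ∀ r : ℤ, cnt (fun p => c p - a p) (n + 1) r =
          (Finset.univ.filter fun g : Fin (n + 1) → P => ∑ k, (c (g k) - a (g k)) = r).card := by
        intro r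
        unfold cnt
        rw [Nat.card_eq_fintype_card, Fintype.card_subtype]
      rw [Finset.sum_congr rfl fun r _ => h4 r]
      refine (Finset.card_le_card ?_).trans Finset.card_biUnion_le
      intro g hg
      simp only [Finset.mem_filter, Finset.mem_univ, true_and, Finset.mem_biUnion,
        Finset.mem_Icc] at hg ⊢
      rw [hd, abs_le] at hg
      exact ⟨_, hg, rfl⟩
    exact_mod_cast this
  have hP0 : (0 : ℝ) < Fintype.card P := by
    have : Nonempty P := ⟨p₀⟩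
    exact_mod_cast Fintype.card_pos
  have hpos : 0 < √(1 + ((n + 1 : ℕ) : ℝ) / (2 * (Fintype.card P : ℝ))) :=
    Real.sqrt_pos.2 (by positivity)
  rw [← le_div_iff₀ hpos]
  refine hcount.trans ?_
  calc ∑ r ∈ Finset.Icc (-(L : ℤ)) L, (cnt (fun p => c p - a p) (n + 1) r : ℝ)
      ≤ ∑ r ∈ Finset.Icc (-(L : ℤ)) L, (Fintype.card P : ℝ) ^ (n + 1) /
          √(1 + ((n + 1 : ℕ) : ℝ) / (2 * (Fintype.card P : ℝ))) :=
        Finset.sum_le_sum fun r _ => cnt_le (δ := fun p => c p - a p) hp (n + 1) r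
    _ = _ := by
        rw [Finset.sum_const, Int.card_Icc, nsmul_eq_mul]
        have : ((L : ℤ) + 1 - -(L : ℤ)).toNat = 2 * L + 1 := by omega
        rw [this]
        push_cast
        ring

/-- The mean square deviation of the eigenvalues is `o(dim Y)`. -/
def SmallMoments (T : Theory.{u, v, w} K Ω) (q : ℕ) : Prop :=
  ∀ ε : ℝ, 0 < ε → ∃ D : ℕ, ∀ Y : SmVar.{u} K, D ≤ Y.dim →
    ((T.H Y).totWeightMoment q : ℝ) ≤
      (T.H Y).totRankMoment + ε * Y.dim * finrank Ω (T.H Y).V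

/-- For some `L` much more than a proportion `(2 L + 1) / √(dim Y)` of the eigenvalues have the
expected weight up to an error `L`. -/
def ManyNear (T : Theory.{u, v, w} K Ω) (q : ℕ) : Prop :=
  ∀ C : ℝ, ∃ D : ℕ, ∀ Y : SmVar.{u} K, D ≤ Y.dim → ∀ M : ℤ → Submodule Ω (T.H Y).V,
    IsMonodromyFiltrationOn ⊤ (T.H Y).N M → ∃ L : ℕ,
      C * (2 * L + 1) * finrank Ω (T.H Y).V ≤ √(Y.dim : ℝ) * within (T.H Y) q M L

lemma adp_pos (hT : T.IsLocal q) (hq : 1 < q) {X : SmVar.{u} K}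
    (hX : ¬ ∀ m, (T.H X).MWPure q m) : (0 : ℝ) < finrank Ω (T.H X).V := by
  obtain ⟨P, hP, a, c, H, -, -, h, -⟩ := exists_adp hT hq X
  rw [H.finrank_eq]
  rw [h] at hX
  push Not at hX
  obtain ⟨p, -⟩ := hX
  have : Nonempty P := ⟨p⟩
  exact_mod_cast Fintype.card_pos

theorem pure_of_moments (hT : T.IsLocal q) (hq : 1 < q) (h : SmallMoments T q) (X : SmVar.{u} K)
    (hd : 1 ≤ X.dim) : ∀ m, (T.H X).MWPure q m := by
  by_contra hX
  have hb := adp_pos hT hq hX
  have hdR : (0 : ℝ) < X.dim := by exact_mod_cast hd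
  obtain ⟨D, hD⟩ := h (1 / (2 * X.dim * finrank Ω (T.H X).V)) (by positivity)
  have h1 := hD (pow X D) (by rw [dim_pow]; nlinarith)
  have h2 := moments_pow hT hq hX D
  have h3 : ((T.H (pow X D)).totRankMoment : ℝ) + (D + 1) * (finrank Ω (T.H X).V : ℝ) ^ D ≤
      (T.H (pow X D)).totWeightMoment q := by exact_mod_cast h2
  have h4 : (finrank Ω (T.H (pow X D)).V : ℝ) = (finrank Ω (T.H X).V : ℝ) ^ (D + 1) := by
    obtain ⟨P, hP, a, c, H, -⟩ := exists_adp hT hq X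
    rw [(adp_pow hT hq X H D).finrank_eq, H.finrank_eq, Fintype.card_fun, Fintype.card_fin]
    push_cast
    ring
  rw [h4, dim_pow] at h1
  have h5 : 1 / (2 * (X.dim : ℝ) * finrank Ω (T.H X).V) * (((D + 1) * X.dim : ℕ) : ℝ) *
      (finrank Ω (T.H X).V : ℝ) ^ (D + 1) = (D + 1) * (finrank Ω (T.H X).V : ℝ) ^ D / 2 := by
    push_cast
    field_simp
    ring
  rw [h5] at h1
  have h6 : (0 : ℝ) < (D + 1) * (finrank Ω (T.H X).V : ℝ) ^ D := by positivity
  linarith

theorem pure_of_near (hT : T.IsLocal q) (hq : 1 < q) (h : ManyNear T q) (X : SmVar.{u} K)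
    (hd : 1 ≤ X.dim) : ∀ m, (T.H X).MWPure q m := by
  by_contra hX
  have hb := adp_pos hT hq hX
  have hdR : (0 : ℝ) < X.dim := by exact_mod_cast hd
  obtain ⟨D, hD⟩ := h (√(2 * X.dim * finrank Ω (T.H X).V) + 1)
  obtain ⟨M, hM⟩ := exists_mon hq (hT.coh (pow X D))
  obtain ⟨L, hL⟩ := hD (pow X D) (by rw [dim_pow]; nlinarith) M hM
  have h1 := within_pow hT hq hX D L hM
  have h4 : (finrank Ω (T.H (pow X D)).V : ℝ) = (finrank Ω (T.H X).V : ℝ) ^ (D + 1) := by
    obtain ⟨P, hP, a, c, H, -⟩ := exists_adp hT hq X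
    rw [(adp_pow hT hq X H D).finrank_eq, H.finrank_eq, Fintype.card_fun, Fintype.card_fin]
    push_cast
    ring
  rw [h4, dim_pow] at hL
  have hw0 : (0 : ℝ) ≤ within (T.H (pow X D)) q M L := by
    by_contra hneg
    push Not at hneg
    have h5 : √(((D + 1) * X.dim : ℕ) : ℝ) * within (T.H (pow X D)) q M L ≤ 0 :=
      mul_nonpos_of_nonneg_of_nonpos (Real.sqrt_nonneg _) hneg.le
    have h6 : (0 : ℝ) < (√(2 * X.dim * finrank Ω (T.H X).V) + 1) * (2 * L + 1) *
        (finrank Ω (T.H X).V : ℝ) ^ (D + 1) := by positivity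
    linarith
  have h5 : √(((D + 1) * X.dim : ℕ) : ℝ) ≤ √(2 * X.dim * finrank Ω (T.H X).V) *
      √(1 + ((D + 1 : ℕ) : ℝ) / (2 * (finrank Ω (T.H X).V : ℝ))) := by
    rw [← Real.sqrt_mul (by positivity)]
    apply Real.sqrt_le_sqrt
    have h6 : 2 * (X.dim : ℝ) * finrank Ω (T.H X).V *
        (1 + ((D + 1 : ℕ) : ℝ) / (2 * (finrank Ω (T.H X).V : ℝ))) =
        2 * X.dim * finrank Ω (T.H X).V + (((D + 1) * X.dim : ℕ) : ℝ) := by
      push_cast
      field_simp
    rw [h6]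
    have : (0 : ℝ) ≤ 2 * X.dim * finrank Ω (T.H X).V := by positivity
    linarith
  have h7 : √(((D + 1) * X.dim : ℕ) : ℝ) * within (T.H (pow X D)) q M L ≤
      √(2 * X.dim * finrank Ω (T.H X).V) *
        ((2 * L + 1) * (finrank Ω (T.H X).V : ℝ) ^ (D + 1)) := by
    calc √(((D + 1) * X.dim : ℕ) : ℝ) * within (T.H (pow X D)) q M L
        ≤ (√(2 * X.dim * finrank Ω (T.H X).V) *
          √(1 + ((D + 1 : ℕ) : ℝ) / (2 * (finrank Ω (T.H X).V : ℝ)))) *
            within (T.H (pow X D)) q M L := mul_le_mul_of_nonneg_right h5 hw0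
      _ = √(2 * X.dim * finrank Ω (T.H X).V) * (within (T.H (pow X D)) q M L *
          √(1 + ((D + 1 : ℕ) : ℝ) / (2 * (finrank Ω (T.H X).V : ℝ)))) := by ring
      _ ≤ _ := mul_le_mul_of_nonneg_left h1 (Real.sqrt_nonneg _)
  have h8 : (0 : ℝ) < (2 * L + 1) * (finrank Ω (T.H X).V : ℝ) ^ (D + 1) := by positivity
  nlinarith

theorem moments_of_pure (hT : T.IsLocal q) (hq : 1 < q)
    (h : ∀ X : SmVar.{u} K, 1 ≤ X.dim → ∀ m, (T.H X).MWPure q m) : SmallMoments T q := by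
  intro ε hε
  refine ⟨1, fun Y hY => ?_⟩
  rw [(moment_tot hq (hT.coh Y)).2.2 (h Y hY)]
  have : (0 : ℝ) ≤ ε * Y.dim * finrank Ω (T.H Y).V := by positivity
  linarith

theorem near_of_pure (hT : T.IsLocal q) (hq : 1 < q)
    (h : ∀ X : SmVar.{u} K, 1 ≤ X.dim → ∀ m, (T.H X).MWPure q m) : ManyNear T q := by
  intro C
  obtain ⟨D, hD⟩ := exists_nat_ge (C ^ 2 + 1)
  refine ⟨D, fun Y hY M hM => ⟨0, ?_⟩⟩
  have hY1 : (C ^ 2 + 1 : ℝ) ≤ Y.dim := hD.trans (by exact_mod_cast hY)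
  have hY2 : 1 ≤ Y.dim := by
    have : (1 : ℝ) ≤ Y.dim := by nlinarith [sq_nonneg C]
    exact_mod_cast this
  obtain ⟨P, hP, a, c, H, -, -, h1, -⟩ := exists_adp hT hq Y
  have h2 : within (T.H Y) q M 0 = finrank Ω (T.H Y).V := by
    rw [adp_within hq (hT.coh Y) H hM, H.finrank_eq, ← Nat.card_eq_fintype_card]
    congr 1
    refine Nat.card_congr (Equiv.subtypeUnivEquiv fun p => ?_)
    rw [(h1.1 (h Y hY2)) p]
    simp
  rw [h2]
  push_cast
  have h3 : C ≤ √(Y.dim : ℝ) := Real.le_sqrt_of_sq_le (by linarith)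
  have h4 : (0 : ℝ) ≤ finrank Ω (T.H Y).V := Nat.cast_nonneg _
  nlinarith

end

end Pool.Agent.Q173.AL
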