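import Pool.Agent.Y163.MW.Asm
import Pool.Agent.Q173.AL.Anti
import Pool.Agent.Q173.OS.Main

/-!
# Moments and numbers of eigenvalues near the expected weight for products
-/

set_option autoImplicit false

open Module TensorProduct

namespace Pool.Agent.Q173.AL

universe u v w

open Pool.Agent.Y143 Pool.Agent.Y136.UB Pool.Agent.H914 Pool.Agent.Y163.MW
  Pool.Agent.Y163.MW.Coh Pool.Agent.Q173.OS

/-- The second moment of a sum of independent variables of mean zero. -/
lemma sum_sq {I : Type} [Fintype I] (c : I → ℤ) (hc : ∑ i, c i = 0) (n : ℕ) :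
    ∑ g : Fin (n + 1) → I, (∑ k, c (g k)) ^ 2 =
      (n + 1) * (Fintype.card I : ℤ) ^ n * ∑ i, c i ^ 2 := by
  have key : ∀ n : ℕ, (∑ g : Fin n → I, ∑ k, c (g k) = 0) ∧
      (∑ g : Fin (n + 1) → I, (∑ k, c (g k)) ^ 2 =
        (n + 1) * (Fintype.card I : ℤ) ^ n * ∑ i, c i ^ 2) := by
    intro n
    induction n with
    | zero =>
      refine ⟨by simp, ?_⟩
      rw [← (Equiv.funUnique (Fin 1) I).symm.sum_comp]
      simp
    | succ n ih =>
      obtain ⟨ih1, ih2⟩ := ih
      have e1 : ∑ g : Fin (n + 1) → I, ∑ k, c (g k) = 0 := by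
        rw [← (Fin.consEquiv (fun _ : Fin (n + 1) => I)).sum_comp, Fintype.sum_prod_type]
        have h1 : ∀ (i : I) (g : Fin n → I),
            ∑ k, c ((Fin.consEquiv (fun _ : Fin (n + 1) => I)) (i, g) k) =
              c i + ∑ k, c (g k) := by
          intro i g
          rw [Fin.sum_univ_succ]
          rfl
        simp only [h1, Finset.sum_add_distrib, Finset.sum_const, ih1, add_zero,
          ← Finset.smul_sum, hc, smul_zero]
      refine ⟨e1, ?_⟩
      rw [← (Fin.consEquiv (fun _ : Fin (n + 1 + 1) => I)).sum_comp, Fintype.sum_prod_type]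
      have h1 : ∀ (i : I) (g : Fin (n + 1) → I),
          (∑ k, c ((Fin.consEquiv (fun _ : Fin (n + 1 + 1) => I)) (i, g) k)) ^ 2 =
            c i ^ 2 + 2 * c i * (∑ k, c (g k)) + (∑ k, c (g k)) ^ 2 := by
        intro i g
        rw [Fin.sum_univ_succ]
        have : ∑ k : Fin (n + 1), c ((Fin.consEquiv (fun _ : Fin (n + 1 + 1) => I)) (i, g) k.succ) =
          ∑ k, c (g k) := rfl
        rw [this]
        have : c ((Fin.consEquiv (fun _ : Fin (n + 1 + 1) => I)) (i, g) 0) = c i := rfl
        rw [this]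
        ring
      simp only [h1, Finset.sum_add_distrib, Finset.sum_const, Finset.card_univ,
        Fintype.card_fun, Fintype.card_fin, ← Finset.mul_sum, e1, mul_zero, ih2, add_zero,
        nsmul_eq_mul, Finset.sum_const_zero]
      push_cast
      ring
  exact (key n).2

/-- The number of the eigenvalues of `F` on the graded pieces `M_s / M_(s - 1)` of a filtration `M`
whose excess differs from the expected one, `s`, by at most `L`. -/
noncomputable def within {Ω : Type w} [Field Ω] [CharZero Ω] (R : Coh.{v, w} Ω) (q : ℕ)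
    (M : ℤ → Submodule Ω R.V) (L : ℕ) : ℤ :=
  ∑ᶠ s : ℤ, ∑ c ∈ Finset.Icc (s - L) (s + L),
    ((finrank Ω (M s ⊓ R.tot q c : Submodule Ω R.V) : ℤ) -
      finrank Ω (M (s - 1) ⊓ R.tot q c : Submodule Ω R.V))

section

variable {Ω : Type w} [Field Ω] [CharZero Ω] {R : Coh.{v, w} Ω} {q : ℕ}
  {I : Type} [Fintype I] {a c : I → ℤ}

lemma adp_fil (H : R.Adp q a c) {M : ℤ → Submodule Ω R.V}
    (hM : IsMonodromyFiltrationOn ⊤ R.N M) (r : ℤ) :
    finrank Ω (M r) = Nat.card {i // a i ≤ r} := by
  obtain ⟨b, e, h, hs, hb⟩ := H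
  rw [Pool.Agent.Y68.MW.stD Pool.Agent.Y141.MW.stL Ω R.V R.N I b a e h hs M hM r,
    finrank_span_image]
  rfl

lemma card_le_sub (a : I → ℤ) (r : ℤ) : (Nat.card {i // a i = r} : ℤ) =
    Nat.card {i // a i ≤ r} - Nat.card {i // a i ≤ r - 1} := by
  classical
  have : Nat.card {i // a i ≤ r} = Nat.card {i // a i = r} + Nat.card {i // a i ≤ r - 1} := by
    rw [Nat.card_eq_fintype_card, Nat.card_eq_fintype_card, Nat.card_eq_fintype_card,
      Fintype.card_subtype, Fintype.card_subtype, Fintype.card_subtype,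
      ← Finset.card_union_of_disjoint]
    · congr 1
      ext i
      simp only [Finset.mem_filter, Finset.mem_univ, true_and, Finset.mem_union]
      omega
    · rw [Finset.disjoint_filter]
      intro i _ h5 h6
      omega
  rw [this]
  push_cast
  ring

/-- The rank moment in terms of any adapted basis. -/
lemma adp_rank [IsAlgClosed Ω] (hq : 1 < q) (hR : R.IsCoh q) (H : R.Adp q a c)
    {M : ℤ → Submodule Ω R.V} (hM : IsMonodromyFiltrationOn ⊤ R.N M) :
    R.totRankMoment = ∑ i, a i ^ 2 := by
  obtain ⟨S⟩ := exists_strings hq hR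
  rw [totRank_eq S, ← finsum_card S.ct (fun r => r ^ 2), ← finsum_card a (fun r => r ^ 2)]
  refine finsum_congr fun r => ?_
  rw [card_le_sub, card_le_sub, ← adp_fil (adp_strings S) hM, ← adp_fil (adp_strings S) hM,
    ← adp_fil H hM, ← adp_fil H hM]

/-- The weight moment in terms of any adapted basis. -/
lemma adp_weight (hq : 1 < q) (hR : R.IsCoh q) (H : R.Adp q a c) :
    R.totWeightMoment q = ∑ i, c i ^ 2 := by
  unfold totWeightMoment squareSum
  rw [← finsum_card c (fun r => r ^ 2)]
  exact finsum_congr fun r => by rw [H.finrank_tot hq hR]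

lemma adp_within (hq : 1 < q) (hR : R.IsCoh q) (H : R.Adp q a c) {M : ℤ → Submodule Ω R.V}
    (hM : IsMonodromyFiltrationOn ⊤ R.N M) (L : ℕ) :
    within R q M L = Nat.card {i // |c i - a i| ≤ L} := by
  classical
  obtain ⟨b, e, h, hs, hb⟩ := H
  have h1 := Pool.Agent.Y68.MW.stD Pool.Agent.Y141.MW.stL Ω R.V R.N I b a e h hs M hM
  have h2 : ∀ r s, finrank Ω (M r ⊓ R.tot q s : Submodule Ω R.V) =
      Nat.card {i // a i ≤ r ∧ c i = s} := by
    intro r s
    rw [h1 r, gr_eq_span (indep_tot hq hR) b c hb s, span_image_inf, finrank_span_image]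
    rfl
  have h3 : ∀ s : ℤ, ∑ r ∈ Finset.Icc (s - L) (s + L),
      ((Nat.card {i // a i ≤ s ∧ c i = r} : ℤ) - Nat.card {i // a i ≤ s - 1 ∧ c i = r}) =
      1 * (Nat.card {g : {i // |c i - a i| ≤ L} // a g.1 = s} : ℤ) := by
    intro s
    have h4 : ∀ r : ℤ, (Nat.card {i // a i ≤ s ∧ c i = r} : ℤ) -
        Nat.card {i // a i ≤ s - 1 ∧ c i = r} =
          ((Finset.univ.filter fun i => a i = s ∧ c i = r).card : ℤ) := by
      intro r
      have h5 : Nat.card {i // a i ≤ s ∧ c i = r} = Nat.card {i // a i ≤ s - 1 ∧ c i = r} +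
          (Finset.univ.filter fun i => a i = s ∧ c i = r).card := by
        rw [Nat.card_eq_fintype_card, Nat.card_eq_fintype_card,
          Fintype.card_subtype, Fintype.card_subtype,
          ← Finset.card_union_of_disjoint]
        · congr 1
          ext i
          simp only [Finset.mem_filter, Finset.mem_univ, true_and, Finset.mem_union]
          omega
        · rw [Finset.disjoint_filter]
          intro i _ h5 h6
          omega
      rw [h5]
      push_cast
      ring
    have e1 : Nat.card {g : {i // |c i - a i| ≤ L} // a g.1 = s} =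
        (Finset.univ.filter fun i => |c i - a i| ≤ L ∧ a i = s).card := by
      rw [Nat.card_congr (Equiv.subtypeSubtypeEquivSubtypeInter (fun i => |c i - a i| ≤ L)
        (fun i => a i = s)), Nat.card_eq_fintype_card, Fintype.card_subtype]
    rw [e1, Finset.sum_congr rfl fun r _ => h4 r, one_mul, ← Nat.cast_sum,
      ← Finset.card_biUnion]
    · congr 2
      ext i
      simp only [Finset.mem_biUnion, Finset.mem_Icc, Finset.mem_filter, Finset.mem_univ, true_and]
      constructor
      · rintro ⟨r, hr, h5, h6⟩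
        rw [abs_le]
        omega
      · rintro ⟨h5, h6⟩
        rw [abs_le] at h5
        exact ⟨c i, by omega, h6, rfl⟩
    · intro r _ r' _ hrr
      rw [Function.onFun, Finset.disjoint_filter]
      intro i _ h5 h6
      exact hrr (h5.2.symm.trans h6.2)
  unfold within
  rw [finsum_congr (fun s => by
    rw [Finset.sum_congr rfl (fun r _ => by rw [h2, h2]), h3 s]),
    finsum_card (fun g : {i // |c i - a i| ≤ L} => a g.1) (fun _ => 1), Finset.sum_const,
    Nat.card_eq_fintype_card]
  simp

/-- The monodromy filtration of the whole cohomology. -/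
lemma exists_mon [IsAlgClosed Ω] (hq : 1 < q) (hR : R.IsCoh q) :
    ∃ M, IsMonodromyFiltrationOn ⊤ R.N M := by
  obtain ⟨S⟩ := exists_strings hq hR
  refine exists_monodromyFiltrationOn (fun _ _ => Submodule.mem_top)
    ⟨∑ s : S.ι, (S.len s + 1), fun x _ => ?_⟩
  have h : (R.N ^ (∑ s : S.ι, (S.len s + 1))) = 0 := by
    apply S.b.ext
    rintro ⟨s, ⟨i, hi⟩⟩
    rw [Pool.Agent.Y461.MW.pow_b, dif_neg, LinearMap.zero_apply]
    have : S.len s + 1 ≤ ∑ s : S.ι, (S.len s + 1) :=
      Finset.single_le_sum (f := fun s : S.ι => S.len s + 1) (fun _ _ => Nat.zero_le _)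
        (Finset.mem_univ s)
    omega
  rw [h, LinearMap.zero_apply]

end

end Pool.Agent.Q173.AL
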